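import Pool.Agent.Run7.h740.BC.Cnt4

set_option autoImplicit false

/-!
# Few exceptional Chern classes of bundles of rank two, of size up to `exp (n ^ c)`

Let `E` be a complex vector bundle of rank two on `ℙ^n` with the Chern classes `c₁`, `c₂`. The theorem
of Riemann-Roch gives the Riemann-Roch conditions for the polynomial `T² - c₁ T + c₂`. They hold for the
classes `a + b`, `a b` of direct sums of line bundles, and these have the discriminants
`c₁² - 4 c₂ = (a - b)²`. We show: for every `ε > 0` there is a `c > 0` such that for all large `n`: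

* For `X ≤ exp (n ^ c)` at most `√X / n ^ (2 √e - ε)` integers `D` with `|D| ≤ X` which are not squares are
  the discriminants of pairs satisfying the Riemann-Roch conditions.
* For `1 ≤ H ≤ exp (n ^ c)` at most `H² / n ^ (2 √e - ε)` pairs of integers with `|c₁| ≤ H`, `|c₂| ≤ H²`
  satisfy the Riemann-Roch conditions and are not of the form `c₁ = a + b`, `c₂ = a b`.

Here `2 √e = 3.29…`. There are about `√X` squares `D ≤ X`, and at least a constant times `H²` pairs of the
form `(a + b, a b)` as in the second statement; so the exceptions are rarer by a power of `n`.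

The starting theorem `FewExceptionalClasses` has `X ≤ n ^ A` and `H ≤ n ^ A` (`A` fixed).

The proof. By the Riemann-Roch conditions `D` is a square modulo all odd primes `p < n`. By `HugeDiscriminants` the
squarefree part `f` of `D` is at least `n ^ (4 √e - ε)` in absolute value if `D` is not a square. The squarefree parts in
question are divided into the dyadic classes `2 ^ j ≤ |f| < 2 ^ (j + 1)`; there are at most `n ^ ε` such classes, as
`log X ≤ n ^ ε`. In each class there are at most `(2 ^ (j + 1) n) ^ ε` squarefree parts: this is a bound of the kind of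
Linnik's theorem on the least non-residue; the proof compares the second moment of the sum of the symbols `(f / m)` over
the `f` in the class, over all `m ≤ n ^ B`, with the contribution of the products `m` of `B` primes below `n`. Here the
number `B` of the factors is about `2 log (2 ^ j) / log n`, which is not bounded any more, and the symbols vanish at the
primes dividing `D`, the number of which is bounded by the logarithm of `X` only. There are at most `√(X / |f|)`
integers `D` with `|D| ≤ X` for each `f`.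
-/

namespace Pool.Agent.Results.MP_b01859_ag.FewExceptionalHugeClasses

open Pool.Agent.R920.CH

/-- **Few exceptional discriminants and Chern classes of large size.** -/
theorem result (ε : ℝ) (hε : 0 < ε) : ∃ c : ℝ, 0 < c ∧ ∃ n₀ : ℕ, ∀ n ≥ n₀,
    (∀ X : ℝ, 0 ≤ X → X ≤ Real.exp ((n : ℝ) ^ c) → ∀ S : Finset ℤ,
      (∀ D ∈ S, |(D : ℝ)| ≤ X ∧ ¬ IsSquare D ∧
        ∃ c₁ c₂ : ℤ, RiemannRoch n (poly2 c₁ c₂) ∧ c₁ ^ 2 - 4 * c₂ = D) →
      (S.card : ℝ) ≤ √X / (n : ℝ) ^ (2 * Real.exp (1 / 2) - ε)) ∧
    (∀ H : ℝ, 1 ≤ H → H ≤ Real.exp ((n : ℝ) ^ c) → ∀ S : Finset (ℤ × ℤ),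
      (∀ c ∈ S, |(c.1 : ℝ)| ≤ H ∧ |(c.2 : ℝ)| ≤ H ^ 2 ∧ RiemannRoch n (poly2 c.1 c.2) ∧
        ¬ ∃ a b : ℤ, c.1 = a + b ∧ c.2 = a * b) →
      (S.card : ℝ) ≤ H ^ 2 / (n : ℝ) ^ (2 * Real.exp (1 / 2) - ε)) := by
  obtain ⟨c, hc0, h⟩ := Pool.Agent.Run7.h740.BC.pairs4 (min ε 1) (lt_min hε one_pos) (min_le_right _ _)
  obtain ⟨n₁, h₁⟩ := Filter.eventually_atTop.mp h
  refine ⟨c, hc0, max n₁ 1, fun n hn => ?_⟩
  have hn1 : (1 : ℝ) ≤ n := by exact_mod_cast le_trans (le_max_right _ _) hn
  have hn0 : (0 : ℝ) < n := by linarith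
  have hp : (n : ℝ) ^ (2 * Real.exp (1 / 2) - ε) ≤ (n : ℝ) ^ (2 * Real.exp (1 / 2) - min ε 1) :=
    Real.rpow_le_rpow_of_exponent_le hn1 (by linarith [min_le_left ε 1])
  have hp0 : 0 < (n : ℝ) ^ (2 * Real.exp (1 / 2) - ε) := Real.rpow_pos_of_pos hn0 _
  obtain ⟨ha, hb⟩ := h₁ n (le_trans (le_max_left _ _) hn)
  refine ⟨fun X hX0 hX S hS => ?_, fun H hH1 hH S hS => ?_⟩
  · exact (ha X hX0 hX S hS).trans (div_le_div_of_nonneg_left (Real.sqrt_nonneg _) hp0 hp)
  · exact (hb H hH1 hH S hS).trans (div_le_div_of_nonneg_left (by positivity) hp0 hp)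

end Pool.Agent.Results.MP_b01859_ag.FewExceptionalHugeClasses
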