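import Pool.Agent.Run7.h702.CT.D
import Pool.Agent.Run7.h702.CT.E
import Pool.Agent.Results.MP_b01859_ag.FewExceptionalHugeClasses

/-!
# Bundles of rank two: the Chern classes near ALL the terms of almost every Collatz trajectory

Let `E` be a complex vector bundle of rank two on `ℙ^n` with the Chern classes `c₁`, `c₂`. The theorem of Riemann-Roch gives
the Riemann-Roch conditions for the polynomial `T² - c₁ T + c₂` (starting files of this page).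

Let `0 < δ ≤ 1`. Let `v` run through the terms of the trajectory of `m` under the Collatz map (`n / 2`, `3 n + 1`) before its
first value smaller than `Y`, and let `n` be ANY integer with `n ≥ exp ((log v) ^ δ)`. For all `m ≤ M` but at most
`C M / (log Y) ^ B` (every `B`, all `Y ≥ 2` and `M`) the trajectory has such a value, and for EVERY term `v` before it:

* let `G` have steps bounded below by a positive constant and growth at most `v ^ d`, `d / 2 + κ < 1` (for example `G v = v`,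
  `κ < 1 / 2`). No bundle of rank two on `ℙ^n` has a discriminant `c₁² - 4 c₂` with `||c₁² - 4 c₂| - a G v| ≤ v ^ (κ + η)`
  for an `a ≤ v ^ η`; here `η > 0` depends on `δ`, `G`, `d`, `κ`;
* let `K` be a constant. For all `1 ≤ a ≤ exp (η (log v) ^ (δ / 2))` all bundles of rank two on `ℙ^n` with
  `|c₂ - a v| ≤ exp (η (log v) ^ (δ / 2))` and `c₁² ≤ K c₂` have the Chern classes of a direct sum of line bundles:
  `c₁ = b + c`, `c₂ = b c` (`η > 0` depends on `δ` and `K`).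

So if `F` tends to infinity, however slowly, then for almost every `m` this holds for all the terms of the trajectory of `m`
down to its first value smaller than `F m`.

The theorem `FewExceptionalHugeClasses` of this page (helper740) bounds the number of the exceptional discriminants and pairs
for a given `n`; here all `n ≥ exp ((log v) ^ δ)` are allowed at once. The terms of the trajectory of a random integer are not
distributed like random integers of their size. The tool is the avoidance of thin sets by all the terms of almost every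
trajectory (starting theorem; Tao's theorem in natural density), in the form of `Run7/h702/CT` (multiples and windows).
-/

set_option autoImplicit false

namespace Pool.Agent.Results.MP_b01859_ag.CollatzTerms

open Finset Filter Topology
open Pool.Agent.R920.CH (RiemannRoch poly2)

/-- The Collatz map. -/
def collatz (n : ℕ) : ℕ := if n % 2 = 0 then n / 2 else 3 * n + 1

/-- The trajectory of `m` takes a value smaller than `Y`, and EVERY term `v` before it has the property `P`. -/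
def AllTerms (P : ℕ → Prop) (Y : ℝ) (m : ℕ) : Prop :=
  ∃ k : ℕ, ((collatz^[k] m : ℕ) : ℝ) < Y ∧ ∀ j < k, P (collatz^[j] m)

/-- `P` holds for all the terms of almost every trajectory: (1) for every `B` there is `K` such that `AllTerms P Y m` holds, for
all `Y ≥ 2` and `N`, for all the `m ∈ [1, N]` but at most `K N / (log Y)^B`; (2) for every function `F` which tends to infinity
the density of the `m` with `AllTerms P (F m) m` is `1`. -/
def OnAllTerms (P : ℕ → Prop) : Prop :=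
  (∀ B : ℕ, ∃ K : ℝ, ∀ Y : ℝ, 2 ≤ Y → ∀ N : ℕ,
    (Set.ncard {m : ℕ | 1 ≤ m ∧ m ≤ N ∧ ¬ AllTerms P Y m} : ℝ) ≤ K * N / Real.log Y ^ B) ∧
  ∀ F : ℕ → ℝ, Tendsto F atTop atTop →
    Tendsto (fun N : ℕ => (Set.ncard {m : ℕ | 1 ≤ m ∧ m ≤ N ∧ AllTerms P (F m) m} : ℝ) / N) atTop (𝓝 1)

/-- The steps of `G` are at least a positive constant, and `G` grows at most like `v ^ d`, `d ≥ 1`. -/
structure Expanding (G : ℕ → ℝ) (d : ℝ) : Prop where
  one_le : 1 ≤ d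
  step : ∃ a : ℝ, 0 < a ∧ ∀ v : ℕ, 1 ≤ v → a ≤ G (v + 1) - G v
  growth : ∃ C : ℝ, ∀ v : ℕ, 1 ≤ v → G v ≤ C * (v : ℝ) ^ d

/-- `x` is near one of the small multiples of `G v`. -/
def Near (G : ℕ → ℝ) (κ η : ℝ) (v : ℕ) (x : ℝ) : Prop :=
  ∃ a : ℕ, 1 ≤ a ∧ (a : ℝ) ≤ (v : ℝ) ^ η ∧ |x - a * G v| ≤ (v : ℝ) ^ (κ + η)

theorem ex_of {G : ℕ → ℝ} {d : ℝ} (h : Expanding G d) : Pool.Agent.N733.TG.Expanding G d := ⟨h.one_le, h.step, h.growth⟩

theorem ex_pow {a d : ℝ} (ha : 0 < a) (hd : 1 ≤ d) : Expanding (fun v => a * (v : ℝ) ^ d) d := by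
  obtain ⟨h1, h2, h3⟩ := Pool.Agent.N733.TG.expanding_pow ha hd
  exact ⟨h1, h2, h3⟩

theorem on_of {P : ℕ → Prop} (h : Run7.h702.CT.OnAllTerms P) : OnAllTerms P := h

theorem ev_M {c K : ℝ} (β : ℝ) (hc : 0 < c) (hK : 1 ≤ K) : ∃ n₁ : ℕ, 1 ≤ n₁ ∧ ∀ n : ℕ, n₁ ≤ n →
    Real.exp (Real.log n ^ β) ≤ Real.exp ((n : ℝ) ^ c) ∧ √(K * Real.exp (Real.log n ^ β)) ≤ Real.exp ((n : ℝ) ^ c) := by
  have h1 := (isLittleO_log_rpow_rpow_atTop β hc).bound one_pos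
  have h2 : ∀ᶠ x : ℝ in atTop, Real.log K ≤ x ^ c := (tendsto_rpow_atTop hc).eventually_ge_atTop _
  obtain ⟨x₀, hx₀⟩ := eventually_atTop.1 (h1.and h2)
  refine ⟨⌈x₀⌉₊ + 1, by omega, fun n hn => ?_⟩
  have hnx : x₀ ≤ n := (Nat.le_ceil _).trans (by exact_mod_cast (by omega : ⌈x₀⌉₊ ≤ n))
  have hn1 : (1 : ℝ) ≤ n := by exact_mod_cast (by omega : 1 ≤ n)
  obtain ⟨g1, g2⟩ := hx₀ n hnx
  rw [one_mul, Real.norm_of_nonneg (Real.rpow_nonneg (Real.log_nonneg hn1) _), Real.norm_of_nonneg (by positivity)] at g1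
  refine ⟨Real.exp_le_exp.2 g1, ?_⟩
  rw [Real.sqrt_le_left (Real.exp_pos _).le]
  calc K * Real.exp (Real.log n ^ β) = Real.exp (Real.log K + Real.log n ^ β) := by
        rw [Real.exp_add, Real.exp_log (by linarith)]
    _ ≤ Real.exp ((n : ℝ) ^ c + (n : ℝ) ^ c) := Real.exp_le_exp.2 (by linarith)
    _ = Real.exp ((n : ℝ) ^ c) ^ 2 := by rw [Real.exp_add, sq]

theorem he : 3 / 2 < Real.exp (1 / 2) := by
  have := Real.add_one_lt_exp (show (1 / 2 : ℝ) ≠ 0 by norm_num)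
  linarith

theorem pow3 (n : ℕ) : (n : ℝ) ^ (2 * Real.exp (1 / 2) - (2 * Real.exp (1 / 2) - 3)) = (n : ℝ) ^ 3 := by
  rw [sub_sub_cancel]
  norm_num

open Classical in
/-- the exceptional discriminants, for all `n` at once, and the squares -/
theorem bad_disc (β : ℝ) : ∃ n₀ : ℕ, ∃ C : ℝ, ∀ X : ℕ, 1 ≤ X →
    (((Ioc 0 X).filter (fun t => t ∈ {t : ℕ | IsSquare t ∨ t ∈ {t : ℕ | ∃ n : ℕ, n₀ ≤ n ∧ 1 ≤ n ∧
      (t : ℝ) ≤ Real.exp (Real.log n ^ β) ∧ t ∈ {t : ℕ | ∃ c₁ c₂ : ℤ, RiemannRoch n (poly2 c₁ c₂) ∧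
        (c₁ ^ 2 - 4 * c₂ : ℤ).natAbs = t ∧ ¬ IsSquare (c₁ ^ 2 - 4 * c₂ : ℤ)}}})).card : ℝ) ≤ C * (X : ℝ) ^ (1 / 2 : ℝ) := by
  obtain ⟨c, hc, n₂, h⟩ := FewExceptionalHugeClasses.result (2 * Real.exp (1 / 2) - 3) (by linarith [he])
  obtain ⟨n₁, hn₁1, hn₁⟩ := ev_M β hc (le_refl 1)
  refine ⟨max n₁ n₂, 1 + 1 * ∑' n : ℕ, 1 / (n : ℝ) ^ 2, fun X hX => ?_⟩
  have hX0 : (0 : ℝ) ≤ X := Nat.cast_nonneg X
  have hfam := Run7.h702.CT.family (E := fun n => {t : ℕ | ∃ c₁ c₂ : ℤ, RiemannRoch n (poly2 c₁ c₂) ∧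
        (c₁ ^ 2 - 4 * c₂ : ℤ).natAbs = t ∧ ¬ IsSquare (c₁ ^ 2 - 4 * c₂ : ℤ)}) (M := fun n => Real.exp (Real.log n ^ β))
    (ψ := fun X => X ^ (1 / 2 : ℝ)) (C := 1) (n₀ := max n₁ n₂) (fun n hn hn1 X hX => ?_) X hX
  · have hsub : (Ioc 0 X).filter (fun t => t ∈ {t : ℕ | IsSquare t ∨ t ∈ {t : ℕ | ∃ n : ℕ, max n₁ n₂ ≤ n ∧ 1 ≤ n ∧
        (t : ℝ) ≤ Real.exp (Real.log n ^ β) ∧ t ∈ {t : ℕ | ∃ c₁ c₂ : ℤ, RiemannRoch n (poly2 c₁ c₂) ∧
        (c₁ ^ 2 - 4 * c₂ : ℤ).natAbs = t ∧ ¬ IsSquare (c₁ ^ 2 - 4 * c₂ : ℤ)}}}) ⊆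
        (Icc 1 (Nat.sqrt X)).image (fun r => r * r) ∪
        (Ioc 0 X).filter (fun t => t ∈ {t : ℕ | ∃ n : ℕ, max n₁ n₂ ≤ n ∧ 1 ≤ n ∧
        (t : ℝ) ≤ Real.exp (Real.log n ^ β) ∧ t ∈ {t : ℕ | ∃ c₁ c₂ : ℤ, RiemannRoch n (poly2 c₁ c₂) ∧
        (c₁ ^ 2 - 4 * c₂ : ℤ).natAbs = t ∧ ¬ IsSquare (c₁ ^ 2 - 4 * c₂ : ℤ)}}) := by
      intro t ht
      rw [mem_filter] at ht
      rw [mem_union]
      rcases ht.2 with h1 | h1
      · left
        obtain ⟨r, hr⟩ := h1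
        have h2 := mem_Ioc.1 ht.1
        rw [mem_image]
        refine ⟨r, ?_, hr.symm⟩
        rw [mem_Icc]
        constructor
        · rcases Nat.eq_zero_or_pos r with h3 | h3
          · rw [h3] at hr
            omega
          · exact h3
        · rw [Nat.le_sqrt]
          omega
      · exact Or.inr (mem_filter.2 ⟨ht.1, h1⟩)
    have h1 : (((Icc 1 (Nat.sqrt X)).image (fun r => r * r)).card : ℝ) ≤ (X : ℝ) ^ (1 / 2 : ℝ) := by
      have h2 : ((Icc 1 (Nat.sqrt X)).image (fun r => r * r)).card ≤ Nat.sqrt X := by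
        refine card_image_le.trans ?_
        rw [Nat.card_Icc]
        omega
      rw [← Real.sqrt_eq_rpow]
      exact le_trans (by exact_mod_cast h2) Real.nat_sqrt_le_real_sqrt
    have h2 : (((Ioc 0 X).filter (fun t => t ∈ {t : ℕ | IsSquare t ∨ t ∈ {t : ℕ | ∃ n : ℕ, max n₁ n₂ ≤ n ∧ 1 ≤ n ∧
        (t : ℝ) ≤ Real.exp (Real.log n ^ β) ∧ t ∈ {t : ℕ | ∃ c₁ c₂ : ℤ, RiemannRoch n (poly2 c₁ c₂) ∧
        (c₁ ^ 2 - 4 * c₂ : ℤ).natAbs = t ∧ ¬ IsSquare (c₁ ^ 2 - 4 * c₂ : ℤ)}}})).card : ℝ) ≤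
        (((Icc 1 (Nat.sqrt X)).image (fun r => r * r)).card : ℝ) +
        (((Ioc 0 X).filter (fun t => t ∈ {t : ℕ | ∃ n : ℕ, max n₁ n₂ ≤ n ∧ 1 ≤ n ∧
        (t : ℝ) ≤ Real.exp (Real.log n ^ β) ∧ t ∈ {t : ℕ | ∃ c₁ c₂ : ℤ, RiemannRoch n (poly2 c₁ c₂) ∧
        (c₁ ^ 2 - 4 * c₂ : ℤ).natAbs = t ∧ ¬ IsSquare (c₁ ^ 2 - 4 * c₂ : ℤ)}})).card : ℝ) := by
      exact_mod_cast (card_le_card hsub).trans (card_union_le _ _)
    refine h2.trans ((add_le_add h1 hfam).trans (le_of_eq (by ring)))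
  · -- the members of the family
    have hn1' : n₁ ≤ n := (le_max_left _ _).trans hn
    have hn2' : n₂ ≤ n := (le_max_right _ _).trans hn
    have hnr : (1 : ℝ) ≤ n := by exact_mod_cast hn1
    obtain ⟨F, hF⟩ : ∃ F : Finset ℕ, F = (Ioc 0 X).filter (fun t : ℕ => (t : ℝ) ≤ Real.exp (Real.log n ^ β) ∧
      t ∈ {t : ℕ | ∃ c₁ c₂ : ℤ, RiemannRoch n (poly2 c₁ c₂) ∧ (c₁ ^ 2 - 4 * c₂ : ℤ).natAbs = t ∧
        ¬ IsSquare (c₁ ^ 2 - 4 * c₂ : ℤ)}) := ⟨_, rfl⟩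
    have hFm : ∀ t ∈ F, (t : ℝ) ≤ X ∧ (t : ℝ) ≤ Real.exp (Real.log n ^ β) ∧ ∃ c₁ c₂ : ℤ,
        RiemannRoch n (poly2 c₁ c₂) ∧ (c₁ ^ 2 - 4 * c₂ : ℤ).natAbs = t ∧ ¬ IsSquare (c₁ ^ 2 - 4 * c₂ : ℤ) := by
      intro t ht
      rw [hF, mem_filter, mem_Ioc] at ht
      exact ⟨by exact_mod_cast ht.1.2, ht.2.1, ht.2.2⟩
    choose! c₁ c₂ hcc using fun (t : ℕ) (ht : t ∈ F) => (hFm t ht).2.2
    have hX0' : (0 : ℝ) ≤ X := Nat.cast_nonneg X
    have h1 := (h n hn2').1 (min (X : ℝ) (Real.exp (Real.log n ^ β))) (le_min hX0' (Real.exp_pos _).le)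
      ((min_le_right _ _).trans (hn₁ n hn1').1) (F.image (fun t => c₁ t ^ 2 - 4 * c₂ t)) (by
        intro D hD
        rw [mem_image] at hD
        obtain ⟨t, ht, rfl⟩ := hD
        obtain ⟨g1, g2, g3⟩ := hcc t ht
        refine ⟨?_, g3, c₁ t, c₂ t, g1, rfl⟩
        have g4 : |((c₁ t ^ 2 - 4 * c₂ t : ℤ) : ℝ)| = t := by
          rw [← Int.cast_abs, Int.abs_eq_natAbs, g2, Int.cast_natCast]
        rw [g4]
        exact le_min (hFm t ht).1 (hFm t ht).2.1)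
    rw [card_image_of_injOn (by
      intro t ht t' ht' hh
      have g1 := (hcc t ht).2.1
      have g2 := (hcc t' ht').2.1
      simp only at hh
      rw [← g1, ← g2, hh]), pow3] at h1
    rw [← hF]
    refine h1.trans ?_
    have h3 : √(min (X : ℝ) (Real.exp (Real.log n ^ β))) ≤ (X : ℝ) ^ (1 / 2 : ℝ) := by
      rw [← Real.sqrt_eq_rpow]
      exact Real.sqrt_le_sqrt (min_le_left _ _)
    rw [one_mul]
    apply div_le_div₀ (by positivity) h3 (by positivity)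
    calc (n : ℝ) ^ 2 = (n : ℝ) ^ 2 * 1 := by ring
      _ ≤ (n : ℝ) ^ 2 * n := mul_le_mul_of_nonneg_left hnr (by positivity)
      _ = (n : ℝ) ^ 3 := by ring

/-- the comparison of sizes -/
theorem min_le {β : ℝ} (hβ : 1 ≤ β) {X n : ℝ} (hX : 1 ≤ X) (hn : 1 ≤ n) :
    min X (Real.exp (Real.log n ^ β)) ≤ Real.exp 1 * n * (X * Real.exp (-(1 / 2 * Real.log X ^ (1 / β)))) := by
  have hβ0 : 0 < β := by linarith
  have hX0 : 0 < X := by linarith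
  have hn0 : 0 < n := by linarith
  have hlX : 0 ≤ Real.log X := Real.log_nonneg hX
  have hln : 0 ≤ Real.log n := Real.log_nonneg hn
  obtain ⟨r, hr⟩ : ∃ r : ℝ, r = Real.log X ^ (1 / β) := ⟨_, rfl⟩
  have hr0 : 0 ≤ r := by rw [hr]; positivity
  rw [← hr]
  rcases le_or_gt (Real.exp (r / 2)) n with h1 | h1
  · refine (min_le_left _ _).trans ?_
    have h2 : 1 ≤ n * Real.exp (-(1 / 2 * r)) := by
      calc (1 : ℝ) = Real.exp (r / 2) * Real.exp (-(1 / 2 * r)) := by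
            rw [← Real.exp_add]
            have : r / 2 + -(1 / 2 * r) = 0 := by ring
            rw [this, Real.exp_zero]
        _ ≤ n * Real.exp (-(1 / 2 * r)) := mul_le_mul_of_nonneg_right h1 (Real.exp_pos _).le
    have h3 : (1 : ℝ) ≤ Real.exp 1 := Real.one_le_exp (by norm_num)
    calc X = X * 1 := by ring
      _ ≤ X * (Real.exp 1 * (n * Real.exp (-(1 / 2 * r)))) := by
          apply mul_le_mul_of_nonneg_left _ hX0.le
          nlinarith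
      _ = Real.exp 1 * n * (X * Real.exp (-(1 / 2 * r))) := by ring
  · refine (min_le_right _ _).trans ?_
    have h2 : Real.log n ≤ r / 2 := by
      rw [← Real.log_exp (r / 2)]
      exact Real.log_le_log hn0 h1.le
    have h3 : Real.log n ^ β ≤ Real.log X / 2 := by
      have h4 : Real.log n ^ β ≤ (r / 2) ^ β := Real.rpow_le_rpow hln h2 hβ0.le
      have h5 : (r / 2) ^ β = Real.log X / 2 ^ β := by
        rw [Real.div_rpow hr0 (by norm_num), hr, ← Real.rpow_mul hlX, one_div_mul_cancel hβ0.ne', Real.rpow_one]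
      have h6 : (2 : ℝ) ≤ 2 ^ β := by
        calc (2 : ℝ) = 2 ^ (1 : ℝ) := by rw [Real.rpow_one]
          _ ≤ 2 ^ β := Real.rpow_le_rpow_of_exponent_le (by norm_num) hβ
      rw [h5] at h4
      exact h4.trans (div_le_div_of_nonneg_left hlX (by norm_num) h6)
    have h7 : r ≤ 2 + Real.log X := by
      rw [hr]
      rcases le_or_gt 1 (Real.log X) with h8 | h8
      · have : Real.log X ^ (1 / β) ≤ Real.log X ^ (1 : ℝ) :=
          Real.rpow_le_rpow_of_exponent_le h8 (by rw [div_le_one hβ0]; exact hβ)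
        rw [Real.rpow_one] at this
        linarith
      · have : Real.log X ^ (1 / β) ≤ 1 := Real.rpow_le_one hlX h8.le (by positivity)
        linarith
    calc Real.exp (Real.log n ^ β) ≤ Real.exp (1 + (Real.log X + -(1 / 2 * r))) := Real.exp_le_exp.2 (by linarith)
      _ = Real.exp 1 * (X * Real.exp (-(1 / 2 * r))) := by rw [Real.exp_add, Real.exp_add, Real.exp_log hX0]
      _ ≤ Real.exp 1 * n * (X * Real.exp (-(1 / 2 * r))) := by
          apply mul_le_mul_of_nonneg_right _ (by positivity)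
          nlinarith [Real.exp_pos 1]

open Classical in
/-- the exceptional second Chern classes, for all `n` at once -/
theorem bad_pairs {β : ℝ} (hβ : 1 ≤ β) {K : ℝ} (hK : 1 ≤ K) : ∃ n₀ : ℕ, ∃ C : ℝ, ∀ X : ℕ, 1 ≤ X →
    (((Ioc 0 X).filter (fun t => t ∈ {t : ℕ | ∃ n : ℕ, n₀ ≤ n ∧ 1 ≤ n ∧
      (t : ℝ) ≤ Real.exp (Real.log n ^ β) ∧ t ∈ {t : ℕ | ∃ c₁ : ℤ, (c₁ : ℝ) ^ 2 ≤ K * t ∧ RiemannRoch n (poly2 c₁ t) ∧
        ¬ ∃ a b : ℤ, c₁ = a + b ∧ (t : ℤ) = a * b}})).card : ℝ) ≤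
      C * X * Real.exp (-(1 / 2 * Real.log X ^ (1 / β))) := by
  obtain ⟨c, hc, n₂, h⟩ := FewExceptionalHugeClasses.result (2 * Real.exp (1 / 2) - 3) (by linarith [he])
  obtain ⟨n₁, hn₁1, hn₁⟩ := ev_M β hc hK
  refine ⟨max n₁ n₂, K * Real.exp 1 * ∑' n : ℕ, 1 / (n : ℝ) ^ 2, fun X hX => ?_⟩
  refine (Run7.h702.CT.family (E := fun n => {t : ℕ | ∃ c₁ : ℤ, (c₁ : ℝ) ^ 2 ≤ K * t ∧ RiemannRoch n (poly2 c₁ t) ∧
        ¬ ∃ a b : ℤ, c₁ = a + b ∧ (t : ℤ) = a * b}) (M := fun n => Real.exp (Real.log n ^ β))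
    (ψ := fun X => X * Real.exp (-(1 / 2 * Real.log X ^ (1 / β)))) (C := K * Real.exp 1) (n₀ := max n₁ n₂)
    (fun n hn hn1 X hX => ?_) X hX).trans (le_of_eq (by ring))
  have hn1' : n₁ ≤ n := (le_max_left _ _).trans hn
  have hn2' : n₂ ≤ n := (le_max_right _ _).trans hn
  have hnr : (1 : ℝ) ≤ n := by exact_mod_cast hn1
  have hX1 : (1 : ℝ) ≤ X := by exact_mod_cast hX
  have hK0 : 0 < K := by linarith
  obtain ⟨F, hF⟩ : ∃ F : Finset ℕ, F = (Ioc 0 X).filter (fun t : ℕ => (t : ℝ) ≤ Real.exp (Real.log n ^ β) ∧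
      t ∈ {t : ℕ | ∃ c₁ : ℤ, (c₁ : ℝ) ^ 2 ≤ K * t ∧ RiemannRoch n (poly2 c₁ t) ∧
        ¬ ∃ a b : ℤ, c₁ = a + b ∧ (t : ℤ) = a * b}) := ⟨_, rfl⟩
  have hFm : ∀ t ∈ F, (t : ℝ) ≤ X ∧ (t : ℝ) ≤ Real.exp (Real.log n ^ β) ∧ ∃ c₁ : ℤ, (c₁ : ℝ) ^ 2 ≤ K * t ∧
      RiemannRoch n (poly2 c₁ t) ∧ ¬ ∃ a b : ℤ, c₁ = a + b ∧ (t : ℤ) = a * b := by
    intro t ht
    rw [hF, mem_filter, mem_Ioc] at ht
    exact ⟨by exact_mod_cast ht.1.2, ht.2.1, ht.2.2⟩
  choose! c₁ hcc using fun (t : ℕ) (ht : t ∈ F) => (hFm t ht).2.2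
  obtain ⟨Z, hZ⟩ : ∃ Z : ℝ, Z = min (X : ℝ) (Real.exp (Real.log n ^ β)) := ⟨_, rfl⟩
  have hZ1 : 1 ≤ Z := by
    rw [hZ]
    exact le_min hX1 (Real.one_le_exp (Real.rpow_nonneg (Real.log_nonneg hnr) _))
  have hKZ : 1 ≤ K * Z := by nlinarith
  have hsq : √(K * Z) ^ 2 = K * Z := Real.sq_sqrt (by linarith)
  have h1 := (h n hn2').2 (√(K * Z)) (by
      rw [Real.one_le_sqrt]
      exact hKZ) ((Real.sqrt_le_sqrt (mul_le_mul_of_nonneg_left (by rw [hZ]; exact min_le_right _ _) hK0.le)).trans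
        (hn₁ n hn1').2) (F.image (fun t => (c₁ t, (t : ℤ)))) (by
      intro p hp
      rw [mem_image] at hp
      obtain ⟨t, ht, rfl⟩ := hp
      obtain ⟨g1, g2, g3⟩ := hcc t ht
      have htZ : (t : ℝ) ≤ Z := by
        rw [hZ]
        exact le_min (hFm t ht).1 (hFm t ht).2.1
      refine ⟨?_, ?_, g2, g3⟩
      · apply Real.abs_le_sqrt
        exact g1.trans (mul_le_mul_of_nonneg_left htZ hK0.le)
      · rw [hsq]
        simp only [Int.cast_natCast, Nat.abs_cast]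
        nlinarith)
  rw [card_image_of_injective _ (by
    intro t t' hh
    simp only [Prod.mk.injEq, Nat.cast_inj] at hh
    exact hh.2), pow3, hsq] at h1
  rw [← hF]
  refine h1.trans ?_
  have h2 := min_le hβ hX1 hnr
  rw [← hZ] at h2
  rw [div_le_div_iff₀ (by positivity) (by positivity)]
  calc K * Z * (n : ℝ) ^ 2
      ≤ K * (Real.exp 1 * n * (X * Real.exp (-(1 / 2 * Real.log X ^ (1 / β))))) * (n : ℝ) ^ 2 := by gcongr
    _ = K * Real.exp 1 * (X * Real.exp (-(1 / 2 * Real.log X ^ (1 / β)))) * (n : ℝ) ^ 3 := by ring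

theorem big {δ : ℝ} (hδ : 0 < δ) (D : ℝ) (n₀ : ℕ) : ∃ v₀ : ℕ, 3 ≤ v₀ ∧ ∀ v : ℕ, v₀ ≤ v → ∀ n : ℕ,
    Real.exp (Real.log v ^ δ) ≤ n → n₀ ≤ n ∧ 1 ≤ n ∧ (v : ℝ) ^ D ≤ Real.exp (Real.log n ^ (2 / δ)) := by
  have hlog : Tendsto (fun v : ℕ => Real.log (v : ℝ)) atTop atTop := Real.tendsto_log_atTop.comp tendsto_natCast_atTop_atTop
  have h1 : Tendsto (fun v : ℕ => Real.exp (Real.log (v : ℝ) ^ δ)) atTop atTop :=
    Real.tendsto_exp_atTop.comp ((tendsto_rpow_atTop hδ).comp hlog)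
  obtain ⟨v₀, hv₀⟩ := eventually_atTop.1 ((h1.eventually_ge_atTop (max (n₀ : ℝ) 1)).and
    (hlog.eventually_ge_atTop (max D 1)))
  refine ⟨max v₀ 3, le_max_right _ _, fun v hv n hn => ?_⟩
  obtain ⟨g1, g2⟩ := hv₀ v ((le_max_left _ _).trans hv)
  have hv3 : 3 ≤ v := (le_max_right _ _).trans hv
  have hv0 : (0 : ℝ) < v := by exact_mod_cast (by omega : 0 < v)
  have g3 := g1.trans hn
  have hn1 : 1 ≤ n := by exact_mod_cast (le_max_right _ _).trans g3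
  refine ⟨by exact_mod_cast (le_max_left _ _).trans g3, hn1, ?_⟩
  have hl1 : 1 ≤ Real.log v := (le_max_right _ _).trans g2
  have hlD : D ≤ Real.log v := (le_max_left _ _).trans g2
  rw [Real.rpow_def_of_pos hv0]
  apply Real.exp_le_exp.2
  have g4 : Real.log v ^ δ ≤ Real.log n := by
    rw [Real.le_log_iff_exp_le (by exact_mod_cast hn1)]
    exact hn
  calc Real.log v * D ≤ Real.log v * Real.log v := mul_le_mul_of_nonneg_left hlD (by linarith)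
    _ = (Real.log v ^ δ) ^ (2 / δ) := by
        rw [← Real.rpow_mul (by linarith), mul_div_cancel₀ _ hδ.ne']
        norm_num [sq]
    _ ≤ Real.log n ^ (2 / δ) := Real.rpow_le_rpow (by positivity) g4 (by positivity)

/-- **Bundles of rank two: the Chern classes near all the terms of almost every Collatz trajectory.** -/
theorem result (δ : ℝ) (hδ : 0 < δ) (hδ1 : δ ≤ 1) :
    (∀ (G : ℕ → ℝ) (d κ : ℝ), Expanding G d → 0 ≤ κ → d / 2 + κ < 1 → ∃ η : ℝ, 0 < η ∧ OnAllTerms (fun v =>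
      ∀ n : ℕ, Real.exp (Real.log v ^ δ) ≤ n → ∀ c₁ c₂ : ℤ, RiemannRoch n (poly2 c₁ c₂) →
        ¬ Near G κ η v |(c₁ : ℝ) ^ 2 - 4 * c₂|)) ∧
    (∀ K : ℝ, ∃ η : ℝ, 0 < η ∧ OnAllTerms (fun v => ∀ n : ℕ, Real.exp (Real.log v ^ δ) ≤ n →
      ∀ a : ℕ, 1 ≤ a → (a : ℝ) ≤ Real.exp (η * Real.log v ^ (δ / 2)) → ∀ c₁ c₂ : ℤ, 0 < c₂ →
      |(c₂ : ℝ) - a * v| ≤ Real.exp (η * Real.log v ^ (δ / 2)) → (c₁ : ℝ) ^ 2 ≤ K * c₂ → RiemannRoch n (poly2 c₁ c₂) →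
      ∃ b c : ℤ, c₁ = b + c ∧ c₂ = b * c)) ∧
    ∀ α d : ℝ, 0 < α → 1 ≤ d → Expanding (fun v => α * (v : ℝ) ^ d) d := by
  classical
  have hβ : 1 ≤ 2 / δ := by
    rw [le_div_iff₀ hδ]
    linarith
  refine ⟨fun G d κ hG hκ h1 => ?_, fun K => ?_, fun α d hα hd => ex_pow hα hd⟩
  · obtain ⟨n₀, C, hC⟩ := bad_disc (2 / δ)
    obtain ⟨η₀, hη₀, h2⟩ := Run7.h702.CT.nat {t : ℕ | IsSquare t ∨ t ∈ {t : ℕ | ∃ n : ℕ, n₀ ≤ n ∧ 1 ≤ n ∧
      (t : ℝ) ≤ Real.exp (Real.log n ^ (2 / δ)) ∧ t ∈ {t : ℕ | ∃ c₁ c₂ : ℤ, RiemannRoch n (poly2 c₁ c₂) ∧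
        (c₁ ^ 2 - 4 * c₂ : ℤ).natAbs = t ∧ ¬ IsSquare (c₁ ^ 2 - 4 * c₂ : ℤ)}}} (ex_of hG) (s := 1 / 2) (κ := κ)
      (by norm_num) hκ (by linarith) (fun ε hε => ⟨|C|, fun X hX => by
          refine le_trans (le_trans (le_of_eq (by congr!)) (hC X hX)) ?_
          refine (mul_le_mul_of_nonneg_right (le_abs_self C) (by positivity)).trans ?_
          exact mul_le_mul_of_nonneg_left
            (Real.rpow_le_rpow_of_exponent_le (by exact_mod_cast hX) (by linarith)) (abs_nonneg C)⟩)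
    have hκ1 : κ ≤ 1 := by
      have := hG.one_le
      linarith
    obtain ⟨v₁, hv₁2, hv₁⟩ := Run7.h702.CT.near_le (ex_of hG) (κ := κ) (η := min η₀ 1) hκ1 (min_le_right _ _)
    obtain ⟨v₂, hv₂3, hv₂⟩ := big hδ (d + 2) n₀
    refine ⟨min η₀ 1, lt_min hη₀ one_pos, on_of (Run7.h702.CT.OnAllTerms.large (v₀ := max v₁ v₂)
      (h2.imp (fun v hv hvv n hn c₁ c₂ hRR hN => ?_)))⟩
    have hvv1 : v₁ ≤ v := (le_max_left _ _).trans hvv
    have hvv2 : v₂ ≤ v := (le_max_right _ _).trans hvv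
    have hv1 : (1 : ℝ) ≤ v := by exact_mod_cast (by omega : 1 ≤ v)
    obtain ⟨a, ha1, ha2, ha3⟩ := hN
    obtain ⟨g1, g2, g3⟩ := hv₂ v hvv2 n hn
    have hcast : |(c₁ : ℝ) ^ 2 - 4 * c₂| = (((c₁ ^ 2 - 4 * c₂ : ℤ).natAbs : ℕ) : ℝ) := by
      rw [Nat.cast_natAbs, Int.cast_abs]
      push_cast
      rfl
    rw [hcast] at ha3
    have h6 := hv₁ v hvv1 a ha2 _ ha3
    have h8 : (v : ℝ) ^ (min η₀ 1) ≤ (v : ℝ) ^ η₀ := Real.rpow_le_rpow_of_exponent_le hv1 (min_le_left _ _)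
    have h8' : (v : ℝ) ^ (κ + min η₀ 1) ≤ (v : ℝ) ^ (κ + η₀) :=
      Real.rpow_le_rpow_of_exponent_le hv1 (by linarith [min_le_left η₀ 1])
    obtain ⟨h9, h10⟩ := hv a ha1 (ha2.trans h8) _ (ha3.trans h8')
    apply h10
    by_cases hsq : IsSquare (c₁ ^ 2 - 4 * c₂ : ℤ)
    · left
      obtain ⟨r, hr⟩ := hsq
      exact ⟨r.natAbs, by rw [hr, Int.natAbs_mul]⟩
    · right
      exact ⟨n, g1, g2, h6.trans g3, c₁, c₂, hRR, rfl, hsq⟩
  · obtain ⟨K', hK'⟩ : ∃ K' : ℝ, K' = max K 1 := ⟨_, rfl⟩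
    have hK'1 : 1 ≤ K' := by rw [hK']; exact le_max_right _ _
    have hKK' : K ≤ K' := by rw [hK']; exact le_max_left _ _
    obtain ⟨n₀, C, hC⟩ := bad_pairs hβ hK'1
    have hβ2 : 1 / (2 / δ) = δ / 2 := by
      rw [one_div_div]
    rw [hβ2] at hC
    obtain ⟨η₀, hη₀, h2⟩ := Run7.h702.CT.thin_good (P := fun t : ℕ => t ∉ {t : ℕ | ∃ n : ℕ, n₀ ≤ n ∧ 1 ≤ n ∧
      (t : ℝ) ≤ Real.exp (Real.log n ^ (2 / δ)) ∧ t ∈ {t : ℕ | ∃ c₁ : ℤ, (c₁ : ℝ) ^ 2 ≤ K' * t ∧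
        RiemannRoch n (poly2 c₁ t) ∧ ¬ ∃ a b : ℤ, c₁ = a + b ∧ (t : ℤ) = a * b}}) (c := 1 / 2) (K := C) (β := δ / 2)
      (by norm_num) (by positivity) (fun X hX => by
        refine le_trans (le_of_eq ?_) (hC X hX)
        rw [Run7.h702.CT.ncard_eq]
        congr 2
        ext t
        simp only [mem_filter, mem_Icc, mem_Ioc, not_not]
        rfl)
    obtain ⟨v₂, hv₂3, hv₂⟩ := big hδ 3 n₀
    refine ⟨min η₀ 1, lt_min hη₀ one_pos, on_of (Run7.h702.CT.OnAllTerms.large (v₀ := v₂)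
      (h2.imp (fun v hv hvv n hn a ha1 ha2 c₁ c₂ hc₂ ha3 hc₁ hRR => ?_)))⟩
    have hv3 : 3 ≤ v := hv₂3.trans hvv
    have hv3r : (3 : ℝ) ≤ v := by exact_mod_cast hv3
    have hv0 : (0 : ℝ) < v := by linarith
    have hl1 : 1 ≤ Real.log v := by
      rw [Real.le_log_iff_exp_le hv0]
      have := Real.exp_one_lt_d9
      linarith
    obtain ⟨g1, g2, g3⟩ := hv₂ v hvv n hn
    have hL0 : 0 ≤ Real.log v ^ (δ / 2) := Real.rpow_nonneg (by linarith) _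
    have h8 : Real.exp (min η₀ 1 * Real.log v ^ (δ / 2)) ≤ Real.exp (η₀ * Real.log v ^ (δ / 2)) :=
      Real.exp_le_exp.2 (mul_le_mul_of_nonneg_right (min_le_left _ _) hL0)
    have h9 : Real.exp (min η₀ 1 * Real.log v ^ (δ / 2)) ≤ v := by
      rw [← Real.exp_log hv0]
      apply Real.exp_le_exp.2
      rw [Real.exp_log hv0]
      have k1 : Real.log v ^ (δ / 2) ≤ Real.log v := by
        calc Real.log v ^ (δ / 2) ≤ Real.log v ^ (1 : ℝ) := Real.rpow_le_rpow_of_exponent_le hl1 (by linarith)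
          _ = Real.log v := Real.rpow_one _
      calc min η₀ 1 * Real.log v ^ (δ / 2) ≤ 1 * Real.log v ^ (δ / 2) :=
            mul_le_mul_of_nonneg_right (min_le_right _ _) hL0
        _ ≤ Real.log v := by linarith
    obtain ⟨t, rfl⟩ : ∃ t : ℕ, c₂ = t := ⟨c₂.toNat, by omega⟩
    have ht1 : 1 ≤ t := by omega
    rw [Int.cast_natCast] at ha3 hc₁
    have h10 := hv a ha1 (ha2.trans h8) t ht1 (ha3.trans h8)
    have ht3 : (t : ℝ) ≤ (v : ℝ) ^ (3 : ℝ) := by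
      have k1 := (abs_le.1 ha3).2
      have k2 : (a : ℝ) * v ≤ v * v := mul_le_mul_of_nonneg_right (ha2.trans h9) hv0.le
      have k3 : (v : ℝ) ^ (3 : ℝ) = v * v * v := by
        norm_num [pow_succ]
      rw [k3]
      nlinarith [mul_pos hv0 hv0]
    by_contra hcon
    apply h10
    refine ⟨n, g1, g2, ht3.trans g3, c₁, hc₁.trans ?_, hRR, hcon⟩
    exact mul_le_mul_of_nonneg_right hKK' (Nat.cast_nonneg t)

end Pool.Agent.Results.MP_b01859_ag.CollatzTerms
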