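import Pool.Agent.Run7.h740.BC.Fin4

set_option autoImplicit false

/-!
# Discriminants of vector bundles of rank two on large projective spaces: no bound for the size

Let `E` be a complex vector bundle of rank two on `ℙ^n` with the Chern classes `c₁`, `c₂`, and let
`D = c₁² - 4 c₂` be its discriminant. Write `D = f s²` with integers `f`, `s` (for example with the squarefree part `f`
of `D`). The theorem of Riemann-Roch gives the Riemann-Roch conditions for the polynomial `T² - c₁ T + c₂`. We show: for
every `ε > 0` there is a `c > 0` such that for all large `n`: if

  at most `n ^ c` primes below `n` divide `D`, and `|f| ≤ n ^ (4 √e - ε)`,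

then `E` has the Chern classes of a direct sum of two line bundles. Here `4 √e = 6.59…`. In particular this holds if
`|D| ≤ exp (n ^ c)` and `|f| ≤ n ^ (4 √e - ε)`.

The starting theorem `BurgessDiscriminant` has `|D| ≤ n ^ A` (`A` fixed) in place of the first condition. A condition on
the primes dividing `D` is necessary for the method: if `s` is divisible by all the primes `p < n`, there is no
condition on `f` modulo primes.

The proof. By the Riemann-Roch conditions `D` is a square modulo all odd primes `p < n`. If `D` is not a square, the
real character `χ` of a suitable modulus `m ∣ 8 f` defined by `f` is therefore equal to `1` at all primes `p < n` which do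
not divide `2 D`. So we need a bound of Burgess and Vinogradov for the least non-residue with a set of up to `n ^ c`
exceptional primes (compare P. Pollack, Bounds for the first several prime character nonresidues, 2017, where
it is shown that a nontrivial character modulo `m` has at least `m ^ κ` prime nonresidues up to `m ^ (1 / (4 √e) + ε)`). Here
the values of `χ` at the exceptional primes up to `z = n ^ c'` are replaced by `1`. Every integer is a product of `a`,
composed of exceptional primes up to `z`, and of an integer `b` free of them. For a given `a`, the sum of `χ(b)` is
small compared with the number of the `b`, by the fundamental lemma of the sieve (in the form of Brun and Hooley)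
with the weights `1 + χ(b)` and `1`, and the bound of Burgess with a power saving; the integers with a large `a`
are rare (the trick of Rankin). The exceptional primes larger than `z` are so few that the sum of their reciprocals is
small, so that they can be treated like the primes above `n` in the method of Vinogradov.
-/

namespace Pool.Agent.Results.MP_b01859_ag.HugeDiscriminants

open Pool.Agent.R920.CH

/-- **Discriminants of bundles of rank two.** For every `ε > 0` there is a `c > 0` such that for all large `n` and all
integers `c₁`, `c₂`, `f`, `s` with `c₁² - 4 c₂ = f s²` and `|f| ≤ n ^ (4 √e - ε)` such that at most `n ^ c` primes `p < n`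
divide `c₁² - 4 c₂`: if the Riemann-Roch conditions hold for `T² - c₁ T + c₂`, then `c₁ = a + b` and `c₂ = a b` for
integers `a`, `b`. -/
theorem result (ε : ℝ) (hε : 0 < ε) : ∃ c : ℝ, 0 < c ∧ ∃ n₀ : ℕ, ∀ n ≥ n₀, ∀ c₁ c₂ f s : ℤ,
    RiemannRoch n (poly2 c₁ c₂) → c₁ ^ 2 - 4 * c₂ = f * s ^ 2 →
    (((Finset.range n).filter fun p : ℕ => p.Prime ∧ (p : ℤ) ∣ c₁ ^ 2 - 4 * c₂).card : ℝ) ≤ (n : ℝ) ^ c →
    (|f| : ℤ) ≤ (n : ℝ) ^ (4 * Real.exp (1 / 2) - ε) →
    ∃ a b : ℤ, c₁ = a + b ∧ c₂ = a * b := by
  obtain ⟨c, hc0, -, h⟩ := Pool.Agent.Run7.h740.BC.rank_two5 ε hε
  exact ⟨c, hc0, Filter.eventually_atTop.mp h⟩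

end Pool.Agent.Results.MP_b01859_ag.HugeDiscriminants
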